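import Pool.Agent.Helper19.HV.StC

/-! HV MODULE KLF (project HV, MP_bae8ce_ag). -/

set_option autoImplicit false

open scoped TensorProduct

namespace Pool.Agent.Helper19.HV

noncomputable section

open PL

theorem mKLF : sKLF := by
  intro G N _ _ _ q j f α hα
  ext v
  let T : ZP G →ₗ[ℚ] N := (show B (q + 2) G ⊗[ℚ] W G j →ₗ[ℚ] N from f) ∘ₗ
    (TensorProduct.mk ℚ (B (q + 2) G) (W G j)).flip (pr G j v) ∘ₗ (R (q + 2) G).mkQ
  have h1 : ∀ β : ZP G, Finsupp.linearCombination ℚ
      (fun x : P1 G => (f ∘ₗ tmL q j x).compAlternatingMap (pr G j)) β v = T β := by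
    intro β
    induction β using Finsupp.induction_linear with
    | zero => rw [map_zero, map_zero, AlternatingMap.zero_apply]
    | add a b ha hb => rw [map_add, map_add, AlternatingMap.add_apply, ha, hb]
    | single x c =>
      have h2 : (Finsupp.single x c : ZP G) = c • Finsupp.single x 1 := by
        rw [Finsupp.smul_single, smul_eq_mul, mul_one]
      rw [h2, map_smul, map_smul, AlternatingMap.smul_apply, Finsupp.linearCombination_single,
        one_smul]
      rfl
  rw [h1, AlternatingMap.zero_apply]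
  have h3 : (R (q + 2) G).mkQ α = 0 := (Submodule.Quotient.mk_eq_zero (R (q + 2) G)).2 hα
  have h4 : T α = (show B (q + 2) G ⊗[ℚ] W G j →ₗ[ℚ] N from f)
    ((TensorProduct.mk ℚ (B (q + 2) G) (W G j)).flip (pr G j v) ((R (q + 2) G).mkQ α)) := rfl
  rw [h4, h3]
  exact (congrArg _ (map_zero _)).trans (map_zero (show B (q + 2) G ⊗[ℚ] W G j →ₗ[ℚ] N from f))

end

end Pool.Agent.Helper19.HV
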